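import Pool.Agent.Run7.h47.SD.All3

set_option autoImplicit false

/-!
# Gaussian disorder, strong coupling: arbitrarily small changes of the kinetic energy give a.c.
# spectrum in the whole bulk

Gaussian Anderson models `Δ + b(Δ) + σ ξ` on `ℓ²(ℤ^d)`, `Δ` the adjacency operator, at strong
coupling `|σ| ≥ C_T d`, where `Δ + σ ξ` is localized: for every `T` and every `ε > 0` there is a
continuous `b` with `|b| ≤ ε` and hopping amplitudes at most `ε / (1 + |x|) ^ (d / 3)` for which the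
spectrum in `(-T |σ|, T |σ|)` is almost surely purely absolutely continuous, and fills this interval.

Project SD of helper47, with pieces by helper216, helper300, helper305, helper704, helper712,
helper83, helper888, helper921, helper947 (and helper361, helper803). Idea: for a translation invariant
dissipative `X` close to `Δ - z` (small dissipation) the mean of `(X + σ ξ)⁻¹` is expanded in powers of
`X + E + i τ` between the diagonal resolvents `(σ ξ_x - E - i τ)⁻¹`, `τ` a small multiple of `|σ|`. The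
path expansion of the mean converges absolutely in the Wiener norm, because the moments of
`(σ ξ_x - E - i τ)⁻¹` decay like `(C / |σ|) ^ m` (the density of `σ ξ_x` is analytic near `E`), and
the dissipation is removed by analytic continuation. So the self-energy of the disorder is close to a
constant of size `|σ|` with negative imaginary part, whatever the size of the dissipation, which gives
the gap for the effective medium equation of the first level of `b`.
-/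

namespace Pool.Agent.Results.MP_1906c1_mp.GaussianStrongDisorderBulkAC

open MeasureTheory ProbabilityTheory

noncomputable section

/-- The hopping amplitudes of `b(Δ)` on `ℤ^d`: the Fourier coefficients of the symbol
`b(∑ i 2 cos (2 π k_i))`. -/
def hopping (b : ℝ → ℝ) (d : ℕ) (x : Fin d → ℤ) : ℂ :=
  UnitAddTorus.mFourierCoeff
    (fun k : UnitAddTorus (Fin d) => ((b (∑ i, 2 * (fourier 1 (k i)).re) : ℝ) : ℂ)) x

/-- `(Δ + b(Δ) + σ ξ) u (x)`, where `Δ u (x) = ∑_{|y-x|=1} u(y)`. -/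
def H (b : ℝ → ℝ) {d : ℕ} (σ : ℝ) (ξ : (Fin d → ℤ) → ℝ) (u : (Fin d → ℤ) → ℂ)
    (x : Fin d → ℤ) : ℂ :=
  (∑ i : Fin d, (u (x + Pi.single i 1) + u (x - Pi.single i 1)))
    + (∑' y, hopping b d (x - y) * u y) + ((σ * ξ x : ℝ) : ℂ) * u x

/-- `u` is square summable and `(H - z) u = δ_x`, i.e. `u = (H - z)⁻¹ δ_x`. -/
def IsGreen (b : ℝ → ℝ) {d : ℕ} (σ : ℝ) (ξ : (Fin d → ℤ) → ℝ) (z : ℂ) (x : Fin d → ℤ)
    (u : (Fin d → ℤ) → ℂ) : Prop :=
  Summable (fun y => ‖u y‖ ^ 2) ∧ ∀ y, H b σ ξ u y - z * u y = if y = x then 1 else 0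

/-- Purely absolutely continuous spectrum filling the interval `(a₁, a₂)`: for every site `x` the
spectral measure `μ` of `δ_x`, i.e. the finite measure with
`⟨δ_x, (H - z)⁻¹ δ_x⟩ = ∫ dμ(E) / (E - z)`, has on `(a₁, a₂)` a density `h`, positive almost
everywhere there. -/
def ACOn (b : ℝ → ℝ) {d : ℕ} (σ : ℝ) (ξ : (Fin d → ℤ) → ℝ) (a₁ a₂ : ℝ) : Prop :=
  ∀ x : Fin d → ℤ, ∃ (μ : Measure ℝ) (h : ℝ → ℝ), IsFiniteMeasure μ ∧
    (∀ z : ℂ, 0 < z.im → (∃ u, IsGreen b σ ξ z x u) ∧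
      ∀ u, IsGreen b σ ξ z x u → u x = ∫ E : ℝ, 1 / ((E : ℂ) - z) ∂μ) ∧
    Measurable h ∧ (∀ᵐ E ∂(volume.restrict (Set.Ioo a₁ a₂)), 0 < h E) ∧
    μ.restrict (Set.Ioo a₁ a₂)
      = (volume.restrict (Set.Ioo a₁ a₂)).withDensity fun E => ENNReal.ofReal (h E)

theorem adj_eq (d : ℕ) (k : UnitAddTorus (Fin d)) :
    W792.WA.Br.adj d k = ∑ i, 2 * (fourier 1 (k i)).re := by
  rw [W792.WA.Br.adj_apply]
  change 2 * (d : ℝ) - ∑ i, (2 - 2 * (fourier 1 (k i)).re) = _
  rw [Finset.sum_sub_distrib]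
  simp
  ring

theorem ac_of {b : ℝ → ℝ} {d : ℕ} (B : C(UnitAddTorus (Fin d), ℝ))
    (hB : ∀ k, B k = b (W792.WA.Br.adj d k)) {σ : ℝ} {ξ : (Fin d → ℤ) → ℝ} {a₁ a₂ : ℝ}
    (h : W792.WA.ACIK (W792.WA.Br.adj d + B) σ ξ a₁ a₂) : ACOn b σ ξ a₁ a₂ := by
  intro x
  obtain ⟨μ, g, h1, h2, h3, h4, h5⟩ := h x
  have e0 : (fun k : UnitAddTorus (Fin d) => ((B k : ℝ) : ℂ))
      = fun k => ((b (∑ i, 2 * (fourier 1 (k i)).re) : ℝ) : ℂ) := by
    funext k
    rw [hB, adj_eq]
  refine ⟨μ, g, h1, fun z hz => ?_, h3, h4, h5⟩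
  have e : ∀ u, W792.LL.Sol (W792.LL.hopK (W792.WA.Br.adj d + B)) σ ξ z x u
      ↔ IsGreen b σ ξ z x u := by
    intro u
    rw [W792.WA.Br.sol_adj_iff B σ ξ z x u, e0]
    rfl
  obtain ⟨⟨w, hw⟩, h6⟩ := h2 z hz
  exact ⟨⟨w, (e w).1 hw⟩, fun u hu => h6 u ((e u).2 hu)⟩

theorem ACOn_neg {b : ℝ → ℝ} {d : ℕ} {σ : ℝ} {ξ : (Fin d → ℤ) → ℝ} {a₁ a₂ : ℝ}
    (h : ACOn b (-σ) (fun x => -ξ x) a₁ a₂) : ACOn b σ ξ a₁ a₂ := by
  have e : ∀ x, (-σ) * (-ξ x) = σ * ξ x := fun x => by ring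
  unfold ACOn IsGreen H at h ⊢
  simp only [e] at h
  exact h

theorem adj_wn (d : ℕ) : Run7.h47.SD.Wn (W792.WA.cR (N659.HB.adjm d)) (2 * d) :=
  Run7.h47.SD.wn_adj d

/-- For every `T > 0` there is a constant `C_T` such that for all `d ≥ 1`, all `|σ| ≥ C_T d` and all
`ε > 0` there is a continuous `b` with `|b| ≤ ε` and hopping amplitudes at most
`ε / (1 + |x|) ^ (d / 3)`, `|x| = max |x_i|`, for which the spectrum of `Δ + b(Δ) + σ ξ`, `ξ` i.i.d.
standard Gaussian, in `(-T |σ|, T |σ|)` is almost surely purely absolutely continuous, and it fills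
this interval. -/
theorem result (T : ℝ) (hT : 0 < T) :
    ∃ C : ℝ, 0 < C ∧ ∀ d : ℕ, 1 ≤ d → ∀ σ ε : ℝ, C * d ≤ |σ| → 0 < ε →
      ∃ b : ℝ → ℝ, Continuous b ∧ (∀ t, |b t| ≤ ε) ∧
        (∀ x : Fin d → ℤ, ‖hopping b d x‖ ≤ ε / (1 + ‖x‖) ^ ((d : ℝ) / 3)) ∧
        ∀ᵐ ξ ∂(Measure.infinitePi fun _ : Fin d → ℤ => gaussianReal 0 1),
          ACOn b σ ξ (-(T * |σ|)) (T * |σ|) := by
  obtain ⟨C, hC, hK⟩ := Run7.h47.SD.sdB (gaussianReal 0 1) T hT
    (fun x => by
      have h0 := nullSingletonClass_gaussianReal (μ := 0) (v := 1) one_ne_zero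
      rw [measure_singleton]
      exact one_pos) (Run7.h47.SD.mgt T hT)
  have g1 : (gaussianReal 0 1).map (fun x : ℝ => -x) = gaussianReal 0 1 := by
    have := gaussianReal_map_neg (μ := 0) (v := 1)
    rwa [neg_zero] at this
  refine ⟨2 * C, by positivity, fun d hd σ ε hσ hε => ?_⟩
  have hd1 : (1 : ℝ) ≤ d := by exact_mod_cast hd
  have hs1 : 0 < |σ| := by
    have : 0 < 2 * C * d := by positivity
    linarith
  obtain ⟨b₀, hb1, hb2, hb3⟩ := hK d (N659.HB.adjm d) (2 * d) |σ| ε (by omega) (adj_wn d) hs1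
    (by linarith) hε
  have hadj : ∀ k, N659.HB.adjm d k = W792.WA.Br.adj d k := fun k => rfl
  have hadj' : N659.HB.adjm d = W792.WA.Br.adj d := ContinuousMap.ext hadj
  have hlap : ∀ k, 2 * (d : ℝ) - W792.WA.Br.adj d k = W792.LL.lap d k := by
    intro k
    rw [← hadj]
    simp only [N659.HB.adjm, ContinuousMap.sub_apply, ContinuousMap.const_apply]
    ring
  obtain ⟨b, hb⟩ : ∃ b : C(ℝ, ℝ), ∀ t, b t = b₀ (2 * (d : ℝ) - t) :=
    ⟨b₀.comp ⟨fun t => 2 * (d : ℝ) - t, by fun_prop⟩, fun t => rfl⟩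
  have hbd' : ∀ x : Fin d → ℤ, ‖hopping b d x‖ ≤ ε / (1 + ‖x‖) ^ ((d : ℝ) / 3) := by
    intro x
    have h := hb2 x
    unfold hopping
    simp only [hb, ← adj_eq, hlap]
    exact h
  refine ⟨b, b.continuous, fun t => by rw [hb]; exact hb1 _, hbd', ?_⟩
  have h3 : ∀ᵐ ξ ∂(Measure.infinitePi fun _ : Fin d → ℤ => gaussianReal 0 1),
      ACOn b |σ| ξ (-(T * |σ|)) (T * |σ|) := by
    change ∀ᵐ ξ ∂(W792.WA.Pn (gaussianReal 0 1) (Fin d → ℤ)), _
    have e4 : W792.WA.gK b₀ d = b.comp (W792.WA.Br.adj d) := by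
      ext k
      simp only [W792.WA.gK, ContinuousMap.comp_apply, hb, hlap]
    rw [hadj', e4] at hb3
    filter_upwards [hb3] with v hv
    exact ac_of (b.comp (W792.WA.Br.adj d)) (fun k => rfl) hv
  rcases lt_or_gt_of_ne (abs_pos.1 hs1) with h | h
  · have h3 : ∀ᵐ ξ ∂(Measure.infinitePi fun _ : Fin d → ℤ => gaussianReal 0 1),
        ACOn b (-σ) ξ (-(T * |σ|)) (T * |σ|) := by
      have e : -σ = |σ| := (abs_of_neg h).symm
      rw [e]
      exact h3
    have hm : Measurable fun t : ℝ => -t := measurable_neg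
    have h4 : (Measure.infinitePi fun _ : Fin d → ℤ => gaussianReal 0 1) =
        (Measure.infinitePi fun _ : Fin d → ℤ => gaussianReal 0 1).map (fun ξ x => -ξ x) := by
      have h5 := (Measure.infinitePi_map_pi (μ := fun _ : Fin d → ℤ => gaussianReal 0 1)
        (f := fun _ => fun t : ℝ => -t) (fun _ => hm))
      rw [h5]
      congr 1
      funext _
      exact g1.symm
    rw [h4] at h3
    have h5 : Measurable fun (ξ : (Fin d → ℤ) → ℝ) (x : Fin d → ℤ) => -ξ x :=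
      measurable_pi_lambda _ fun x => hm.comp (measurable_pi_apply x)
    have h6 := ae_of_ae_map h5.aemeasurable h3
    filter_upwards [h6] with ξ hξ
    exact ACOn_neg hξ
  · have e : |σ| = σ := abs_of_pos h
    have h4 : ∀ σ' : ℝ, σ' = σ → ∀ᵐ ξ ∂(Measure.infinitePi fun _ : Fin d → ℤ => gaussianReal 0 1),
        ACOn b σ' ξ (-(T * |σ|)) (T * |σ|) → ACOn b σ ξ (-(T * |σ|)) (T * |σ|) := by
      intro σ' h'
      subst h'
      exact Filter.Eventually.of_forall fun _ h => h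
    filter_upwards [h3, h4 |σ| e] with ξ h5 h6
    exact h6 h5

end

end Pool.Agent.Results.MP_1906c1_mp.GaussianStrongDisorderBulkAC
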