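import Pool.Agent.Run7.h442.HD.GA4

set_option autoImplicit false

/-!
# The Anderson model in high dimension at coupling of order one: quantum diffusion

`H_σ = Δ + σ ξ` on `ℓ²(ℤ^d)`, `d` large, `ξ` i.i.d. standard Gaussian (or any law with mean zero,
variance one and finite moments), `1 / K ≤ |σ| ≤ K`. For all energies `|E| ≤ A √d` and all spectral
widths `t` with `d^(-1/2-1/200) ≤ t ≤ w / √d` the density `x ↦ |(H_σ - E - i t)⁻¹(0, x)|²` is, in
mean square over the disorder, the diffusive one. Here `Δ` has norm `2 d`, its spectral measure at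
a site has width of the order `√d`, and the mean free time is of the order `√d`.
-/

namespace Pool.Agent.Results.MP_1906c1_mp.HighDimQuantumDiffusion

open MeasureTheory ProbabilityTheory

noncomputable section

/-- `u` is square summable and `(Δ + σ ξ - z) u = δ_0`, i.e. `u = (H_σ - z)⁻¹ δ_0`. -/
def IsGreen (d : ℕ) (σ : ℝ) (z : ℂ) (ξ : (Fin d → ℤ) → ℝ) (u : (Fin d → ℤ) → ℂ) : Prop :=
  (Summable fun x => ‖u x‖ ^ 2) ∧
  ∀ x, ∑ i, (u (x + Pi.single i 1) + u (x - Pi.single i 1)) + σ * ξ x * u x - z * u x =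
    if x = 0 then 1 else 0

/-- The Fourier transform `∑_x exp (i p·x) |u x|²` of the density of `u`. -/
def dens {d : ℕ} (u : (Fin d → ℤ) → ℂ) (p : Fin d → ℝ) : ℂ :=
  ∑' x : Fin d → ℤ, Complex.exp (Complex.I * ((∑ i, p i * x i : ℝ) : ℂ)) * ((‖u x‖ ^ 2 : ℝ) : ℂ)

/-- `(√π / 2) exp (-E² / (4 d))`: asymptotically `π √d` times the density of states of `Δ` at `E`. -/
def gau (d : ℕ) (E : ℝ) : ℝ := Real.sqrt Real.pi / 2 * Real.exp (-(E ^ 2 / (4 * d)))

/-- `ξ` being i.i.d. with law `μ`: for all `K ≥ 1`, `A`, `M` and `ε` there are `w > 0` and `d₀` such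
that for `d ≥ d₀`, `1 / K ≤ |σ| ≤ K`, `|E| ≤ A √d`, `d^(-1/2-1/200) ≤ t ≤ w / √d`,
`∑ |P_i| ≤ M` and `G = (H_σ - E - i t)⁻¹ δ_0`,
`𝔼 |√d t ∑_x exp (i |σ| √(t / √d) P·x) |G(x)|² - g / (1 + |P|² / (2 g))|² ≤ ε`, `g = gau d E`.
With `p = |σ| √(t / √d) P` and `D = √d / (g σ²)` the limit is `g · 2 t / (2 t + D |p|²)`. -/
def Diffusive (μ : Measure ℝ) : Prop :=
  ∀ K A M ε : ℝ, 1 ≤ K → 0 ≤ M → 0 < ε → ∃ w : ℝ, 0 < w ∧ ∃ d₀ : ℕ, ∀ d : ℕ, d₀ ≤ d →
    ∀ σ E t : ℝ, 1 / K ≤ |σ| → |σ| ≤ K → |E| ≤ A * Real.sqrt d →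
    (d : ℝ) ^ (-(1 / 2 + 1 / 200 : ℝ)) ≤ t → t ≤ w / Real.sqrt d →
    ∀ P : Fin d → ℝ, ∑ i, |P i| ≤ M → ∀ G : ((Fin d → ℤ) → ℝ) → (Fin d → ℤ) → ℂ,
    (∀ ξ, IsGreen d σ ((E : ℂ) + (t : ℂ) * Complex.I) ξ (G ξ)) →
    Integrable (fun ξ => ‖((Real.sqrt d * t : ℝ) : ℂ) *
        dens (G ξ) (fun i => |σ| * Real.sqrt (t / Real.sqrt d) * P i) -
      ((gau d E / (1 + (∑ i, P i ^ 2) / (2 * gau d E)) : ℝ) : ℂ)‖ ^ 2)
      (Measure.infinitePi fun _ : Fin d → ℤ => μ) ∧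
    ∫ ξ, ‖((Real.sqrt d * t : ℝ) : ℂ) *
        dens (G ξ) (fun i => |σ| * Real.sqrt (t / Real.sqrt d) * P i) -
      ((gau d E / (1 + (∑ i, P i ^ 2) / (2 * gau d E)) : ℝ) : ℂ)‖ ^ 2
      ∂(Measure.infinitePi fun _ : Fin d → ℤ => μ) ≤ ε

theorem diffusive (μ : Measure ℝ) [IsProbabilityMeasure μ]
    (h : ∀ n : ℕ, Integrable (fun x : ℝ => x ^ n) μ) (h1 : ∫ x, x ∂μ = 0)
    (h2 : ∫ x, x ^ 2 ∂μ = 1) : Diffusive μ := by
  intro K A M ε hK hM hε
  obtain ⟨w, hw, -, d0, H⟩ := Run7.h442.HD.GA.qdG μ h h1 h2 K A M ε hK hM hε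
  refine ⟨w, hw, d0 + 1, fun d hd σ E t hσ1 hσ2 hE ht1 ht2 P hP G hG => ?_⟩
  have hd0 : (0 : ℝ) < d := by
    have : 0 < d := lt_of_lt_of_le (Nat.succ_pos _) hd
    exact_mod_cast this
  have hs : 0 < Real.sqrt d := Real.sqrt_pos.2 hd0
  have ht3 : t * Real.sqrt d ≤ w := by rwa [le_div_iff₀ hs] at ht2
  exact H d (by omega) σ E t hσ1 hσ2 hE ht1 ht3 P hP G hG

theorem gaussian_moments (n : ℕ) : Integrable (fun x : ℝ => x ^ n) (gaussianReal 0 1) := by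
  rcases Nat.eq_zero_or_pos n with h | h
  · subst h
    simp
  · have h1 : MemLp (id : ℝ → ℝ) n (gaussianReal 0 1) :=
      memLp_id_gaussianReal' n (ENNReal.natCast_ne_top n)
    have h2 := h1.integrable_norm_pow (by omega)
    refine h2.mono' (by fun_prop) (Filter.Eventually.of_forall fun x => ?_)
    rw [norm_pow]
    rfl

/-- The Green function exists and is unique, and there is quantum diffusion in high dimension for
the standard Gaussian law and for every law with mean zero, variance one and finite moments. -/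
theorem result :
    (∀ (d : ℕ) (σ : ℝ) (z : ℂ) (ξ : (Fin d → ℤ) → ℝ), 0 < z.im → ∃! u, IsGreen d σ z ξ u) ∧
    Diffusive (gaussianReal 0 1) ∧
    ∀ (μ : Measure ℝ) [IsProbabilityMeasure μ], (∀ n : ℕ, Integrable (fun x : ℝ => x ^ n) μ) →
      ∫ x, x ∂μ = 0 → ∫ x, x ^ 2 ∂μ = 1 → Diffusive μ := by
  refine ⟨fun d σ z ξ hz => ?_, ?_, fun μ _ h h1 h2 => diffusive μ h h1 h2⟩
  · have h := Run7.h47.green_eu (d := d) (σ := σ) (E := z.re) hz ξ
    rw [Complex.re_add_im] at h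
    exact h
  · refine diffusive _ gaussian_moments ?_ ?_
    · exact integral_id_gaussianReal
    · have h1 := variance_fun_id_gaussianReal (μ := 0) (v := 1)
      rw [variance_eq_integral (by fun_prop)] at h1
      simp only [integral_id_gaussianReal, sub_zero] at h1
      simpa using h1

end

end Pool.Agent.Results.MP_1906c1_mp.HighDimQuantumDiffusion
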