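import Pool.Agent.Run7.h47.Fin1

set_option autoImplicit false

/-!
# Gaussian Anderson model, `d ≥ 3`: quantum diffusion beyond the kinetic scale

`H_σ = Δ + σ ξ` on `ℓ²(ℤ^d)`, `d ≥ 3`, `ξ` i.i.d. standard Gaussian. For all energies in a compact part
of the spectrum of `Δ` and all spectral widths `t` with `|σ| ^ (2 + κ) ≤ t ≤ s σ²`, `κ < 4 / 35`, the
density `x ↦ |(H_σ - E - i t)⁻¹(0, x)|²` is, at momenta of order `|σ| √t` and in mean square over the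
disorder, the diffusive one, with the diffusion constant of kinetic theory.
-/

namespace Pool.Agent.Results.MP_1906c1_mp.QuantumDiffusion

open MeasureTheory ProbabilityTheory Filter Topology

noncomputable section

/-- `u` is square summable and `(Δ + σ ξ - z) u = δ_0`, i.e. `u = (H_σ - z)⁻¹ δ_0`. -/
def IsGreen (d : ℕ) (σ : ℝ) (z : ℂ) (ξ : (Fin d → ℤ) → ℝ) (u : (Fin d → ℤ) → ℂ) : Prop :=
  (Summable fun x => ‖u x‖ ^ 2) ∧
  ∀ x, ∑ i, (u (x + Pi.single i 1) + u (x - Pi.single i 1)) + σ * ξ x * u x - z * u x =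
    if x = 0 then 1 else 0

/-- The Fourier transform `∑_x exp (i p·x) |u x|²` of the density of `u`. -/
def dens {d : ℕ} (u : (Fin d → ℤ) → ℂ) (p : Fin d → ℝ) : ℂ :=
  ∑' x : Fin d → ℤ, Complex.exp (Complex.I * ((∑ i, p i * x i : ℝ) : ℂ)) * ((‖u x‖ ^ 2 : ℝ) : ℂ)

/-- `(2 π)^(-d) ∫_{[0, 2 π]^d} f(k) δ_η(e(k) - E) dk` with `e(k) = ∑ 2 cos k_i`, the symbol of `Δ`,
and the Poisson kernel `δ_η(x) = π⁻¹ η / (x² + η²)`. -/
def shell (d : ℕ) (f : (Fin d → ℝ) → ℝ) (E η : ℝ) : ℝ :=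
  ((2 * Real.pi) ^ d)⁻¹ * ∫ k in Set.Icc (0 : Fin d → ℝ) (fun _ => 2 * Real.pi),
    f k * (Real.pi⁻¹ * (η / ((∑ i, 2 * Real.cos (k i) - E) ^ 2 + η ^ 2)))

/-- Let `d ≥ 3`, `a < 2 d` and `0 < κ < 4 / 35`. The Green function exists and is unique. For
`|E| ≤ a` let `ρ(E)` be the density of states of `Δ` and `w(E)` the same average of
`|∇e(k)|² / d` (both are positive). For all `M` and `ε` there is `s > 0` such that for
`0 < |σ| ≤ s`, `|E| ≤ a`, `|σ| ^ (2 + κ) ≤ t ≤ s σ²` and all `P` with `|P_i| ≤ M`,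
`𝔼 |t ∑_x exp (i |σ| √t P·x) |G(x)|² - π ρ / (1 + |P|² w / (4 π ρ²))|² ≤ ε`,
where `G = (H_σ - E - i t)⁻¹ δ_0`. With `p = |σ| √t P` and `D = w / (2 π σ² ρ²)` the limit is
`t · 2 π ρ / (2 t + D |p|²)`, the diffusive form. -/
theorem result (d : ℕ) (hd : 3 ≤ d) (a : ℝ) (ha : a < 2 * d) (κ : ℝ) (hκ0 : 0 < κ)
    (hκ : κ < 4 / 35) :
    (∀ (σ : ℝ) (z : ℂ) (ξ : (Fin d → ℤ) → ℝ), 0 < z.im → ∃! u, IsGreen d σ z ξ u) ∧
    ∃ ρ w : ℝ → ℝ,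
      (∀ E : ℝ, |E| ≤ a → 0 < ρ E ∧ 0 < w E ∧
        Tendsto (shell d (fun _ => 1) E) (𝓝[>] 0) (𝓝 (ρ E)) ∧
        Tendsto (shell d (fun k => (∑ i, (2 * Real.sin (k i)) ^ 2) / d) E) (𝓝[>] 0)
          (𝓝 (w E))) ∧
      ∀ M ε : ℝ, 0 ≤ M → 0 < ε → ∃ s : ℝ, 0 < s ∧ ∀ σ E t : ℝ, 0 < |σ| → |σ| ≤ s → |E| ≤ a →
        |σ| ^ (2 + κ) ≤ t → t ≤ s * σ ^ 2 → ∀ P : Fin d → ℝ, (∀ i, |P i| ≤ M) →
        ∀ G : ((Fin d → ℤ) → ℝ) → (Fin d → ℤ) → ℂ,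
        (∀ ξ, IsGreen d σ ((E : ℂ) + (t : ℂ) * Complex.I) ξ (G ξ)) →
        Integrable (fun ξ => ‖(t : ℂ) * dens (G ξ) (fun i => |σ| * Real.sqrt t * P i) -
          ((Real.pi * ρ E / (1 + (∑ i, P i ^ 2) * (w E / (4 * Real.pi * ρ E ^ 2))) : ℝ) : ℂ)‖ ^ 2)
          (Measure.infinitePi fun _ : Fin d → ℤ => gaussianReal 0 1) ∧
        ∫ ξ, ‖(t : ℂ) * dens (G ξ) (fun i => |σ| * Real.sqrt t * P i) -
          ((Real.pi * ρ E / (1 + (∑ i, P i ^ 2) * (w E / (4 * Real.pi * ρ E ^ 2))) : ℝ) : ℂ)‖ ^ 2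
          ∂(Measure.infinitePi fun _ : Fin d → ℤ => gaussianReal 0 1) ≤ ε := by
  refine ⟨fun σ z ξ hz => ?_, ?_⟩
  · have h := Run7.h47.green_eu (d := d) (σ := σ) (E := z.re) hz ξ
    rw [Complex.re_add_im] at h
    exact h
  · obtain ⟨ρ, w, h1, h2⟩ := Run7.h47.qdiff d hd a ha κ hκ0 hκ
    have key : ∀ (f : (Fin d → ℝ) → ℝ) (E η : ℝ), shell d f E η =
        Real.pi⁻¹ * ((2 * Real.pi) ^ d)⁻¹ *
          ∫ k in Set.Icc (0 : Fin d → ℝ) (fun _ => 2 * Real.pi),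
            f k * (η / ((∑ i, 2 * Real.cos (k i) - E) ^ 2 + η ^ 2)) := by
      intro f E η
      unfold shell
      rw [mul_comm Real.pi⁻¹, mul_assoc]
      congr 1
      rw [← integral_const_mul]
      refine integral_congr_ae (Filter.Eventually.of_forall fun k => ?_)
      simp only
      ring
    refine ⟨ρ, w, fun E hE => ?_, h2⟩
    obtain ⟨b1, b2, b3, b4⟩ := h1 E hE
    refine ⟨b1, b2, ?_, ?_⟩
    · refine b3.congr fun η => ?_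
      rw [key]
      simp only [one_mul]
    · exact b4.congr fun η => (key _ E η).symm

end

end Pool.Agent.Results.MP_1906c1_mp.QuantumDiffusion
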